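import Pool.Agent.N167.SG.LH
import Pool.Agent.N247.TR_Gen
import Pool.Agent.N951.TR5

/-!
# LH/1: energy equality for rapidly decreasing solutions of the tree model (helper402)
-/

set_option autoImplicit false

namespace Pool.Agent.N402.LH

open Set Filter Topology MeasureTheory
open Pool.Agent.N167.TR Pool.Agent.N167.SG
open Pool.Agent.N247.TR (L mem_L gen_eq)

variable {M : ℕ}

theorem L_const (n : ℕ) (c : ℝ) : ∑ _j ∈ L (M := M) n, c = (M : ℝ) ^ n * c := by
  rw [← gen_eq]
  exact (Pool.Agent.N247.TR.main M).2.2.2.2.1 n c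

/-- the nodes of generation at most `N` -/
def U (N : ℕ) : Finset (List (Fin M)) := (Finset.range (N + 1)).biUnion L

theorem mem_U (N : ℕ) (j : List (Fin M)) : j ∈ U N ↔ j.length ≤ N := by
  unfold U
  rw [Finset.mem_biUnion]
  constructor
  · rintro ⟨n, hn, hj⟩
    rw [(mem_L n j).1 hj]
    have := Finset.mem_range.1 hn
    omega
  · intro h
    exact ⟨j.length, Finset.mem_range.2 (by omega), (mem_L _ j).2 rfl⟩

theorem sum_U (N : ℕ) (g : List (Fin M) → ℝ) :
    ∑ j ∈ U N, g j = ∑ n ∈ Finset.range (N + 1), ∑ j ∈ L n, g j := by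
  unfold U
  refine Finset.sum_biUnion ?_
  intro a _ b _ hab
  rw [Function.onFun, Finset.disjoint_left]
  intro j hj hj'
  exact hab (((mem_L a j).1 hj).symm.trans ((mem_L b j).1 hj'))

theorem tendsto_U : Tendsto (fun N => U (M := M) N) atTop atTop := by
  refine tendsto_atTop_finset_of_monotone ?_ ?_
  · intro N N' h j hj
    rw [mem_U] at hj ⊢
    exact hj.trans h
  · intro j
    exact ⟨j.length, (mem_U _ j).2 le_rfl⟩

theorem rmul {a b : ℕ → ℝ} (ha : Rapid a) (hb : Rapid b) (ha0 : ∀ n, 0 ≤ a n)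
    (hb0 : ∀ n, 0 ≤ b n) : Rapid (fun n => a n * b n) := by
  intro s hs
  obtain ⟨C, hC⟩ := ha s hs
  obtain ⟨C', hC'⟩ := hb 1 one_pos
  refine ⟨C * C', fun n => ?_⟩
  have h1 := hC n
  have h2 := hC' n
  rw [one_pow, one_mul] at h2
  have h3 : 0 ≤ s ^ n * a n := mul_nonneg (pow_nonneg hs.le n) (ha0 n)
  calc s ^ n * (a n * b n) = (s ^ n * a n) * b n := by ring
    _ ≤ C * C' := mul_le_mul h1 h2 (hb0 n) (h3.trans h1)

theorem rpow {a : ℕ → ℝ} (ha : Rapid a) {c : ℝ} (hc : 0 < c) : Rapid (fun n => c ^ n * a n) := by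
  intro s hs
  obtain ⟨C, hC⟩ := ha (s * c) (by positivity)
  refine ⟨C, fun n => ?_⟩
  have h := hC n
  rw [mul_pow] at h
  calc s ^ n * (c ^ n * a n) = s ^ n * c ^ n * a n := by ring
    _ ≤ C := h

theorem summ {a : ℕ → ℝ} (ha : Rapid a) (h0 : ∀ n, 0 ≤ a n) (hM : 0 < M) :
    Summable (fun j : List (Fin M) => a j.length) := by
  have hMR : (0 : ℝ) < M := by exact_mod_cast hM
  obtain ⟨C, hC⟩ := ha (2 * M) (by positivity)
  have hC0 : 0 ≤ C := by
    have := hC 0
    rw [pow_zero, one_mul] at this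
    exact (h0 0).trans this
  refine summable_of_sum_le (fun j => h0 _) (c := C * 2) fun s => ?_
  obtain ⟨N, hN⟩ : ∃ N, s ⊆ U N :=
    ⟨s.sup List.length, fun j hj => (mem_U _ _).2 (Finset.le_sup (f := List.length) hj)⟩
  calc ∑ j ∈ s, a j.length ≤ ∑ j ∈ U N, a j.length :=
        Finset.sum_le_sum_of_subset_of_nonneg hN fun j _ _ => h0 _
    _ = ∑ n ∈ Finset.range (N + 1), ∑ j ∈ L (M := M) n, a j.length := sum_U N _
    _ ≤ ∑ n ∈ Finset.range (N + 1), C * (1 / 2 : ℝ) ^ n := by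
        refine Finset.sum_le_sum fun n _ => ?_
        have h1 : ∑ j ∈ L (M := M) n, a j.length = (M : ℝ) ^ n * a n := by
          rw [← L_const]
          exact Finset.sum_congr rfl fun j hj => by rw [(mem_L n j).1 hj]
        rw [h1, one_div, inv_pow, ← div_eq_mul_inv, le_div_iff₀ (by positivity)]
        have h2 := hC n
        rw [mul_pow] at h2
        linarith
    _ = C * ∑ n ∈ Finset.range (N + 1), (1 / 2 : ℝ) ^ n := by rw [Finset.mul_sum]
    _ ≤ C * 2 := mul_le_mul_of_nonneg_left (sum_geometric_two_le _) hC0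

theorem tend {g : List (Fin M) → ℝ} (hg : Summable g) :
    Tendsto (fun N => ∑ j ∈ U N, g j) atTop (𝓝 (∑' j, g j)) :=
  hg.hasSum.comp tendsto_U

/-- the boundary term -/
def bd (B : ℝ) (N : ℕ) (z : List (Fin M) → ℝ) : ℝ :=
  B ^ N * ∑ j ∈ L N, z j ^ 2 * ∑ k : Fin M, z (k :: j)

theorem tele' (B D ν : ℝ) (g z : List (Fin M) → ℝ) (N : ℕ) :
    ∑ j ∈ U N, 2 * z j * rhs B D ν g z j =
      2 * ∑ j ∈ U N, g j * z j - ∑ j ∈ U N, 2 * ν * D ^ j.length * z j ^ 2 - 2 * bd B N z := by
  have h1 := Pool.Agent.N951.TR5.tele Pool.Agent.N247.TR.main B D ν g z N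
  simp only [gen_eq] at h1
  have h2 : ∑ j ∈ U N, 2 * z j * rhs B D ν g z j =
      2 * ∑ n ∈ Finset.range (N + 1), ∑ j ∈ L n, z j * rhs B D ν g z j := by
    rw [← sum_U, Finset.mul_sum]
    exact Finset.sum_congr rfl fun j _ => by ring
  rw [h2, h1, Finset.sum_sub_distrib, ← sum_U N (fun j => z j * g j)]
  have h3 : ∑ n ∈ Finset.range (N + 1), ν * (D ^ n * ∑ j ∈ L (M := M) n, z j ^ 2) =
      ∑ j ∈ U N, ν * D ^ j.length * z j ^ 2 := by
    rw [sum_U]
    refine Finset.sum_congr rfl fun n _ => ?_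
    rw [← mul_assoc, Finset.mul_sum]
    exact Finset.sum_congr rfl fun j hj => by rw [(mem_L n j).1 hj]
  rw [h3]
  have h4 : ∑ j ∈ U N, 2 * ν * D ^ j.length * z j ^ 2 =
      2 * ∑ j ∈ U N, ν * D ^ j.length * z j ^ 2 := by
    rw [Finset.mul_sum]
    exact Finset.sum_congr rfl fun j _ => by ring
  have h5 : ∑ j ∈ U N, z j * g j = ∑ j ∈ U N, g j * z j :=
    Finset.sum_congr rfl fun j _ => mul_comm _ _
  rw [h4, h5]
  unfold bd
  ring

section sol

variable {B D ν : ℝ} {F a : ℕ → ℝ} {f : List (Fin M) → ℝ → ℝ} {x : List (Fin M) → ℝ}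
  {X : List (Fin M) → ℝ → ℝ}

theorem cont (hX : IsSol B D ν f x X) (j : List (Fin M)) : ContinuousOn (X j) (Ici 0) :=
  fun t ht => (hX.2 j t ht).continuousWithinAt

theorem ii {g : ℝ → ℝ} (hg : ContinuousOn g (Ici 0)) {t : ℝ} (ht : 0 ≤ t) :
    IntervalIntegrable g volume 0 t := by
  refine ContinuousOn.intervalIntegrable (hg.mono ?_)
  rw [uIcc_of_le ht]
  exact Icc_subset_Ici_self

theorem trunc (hf : ∀ j, ContinuousOn (f j) (Ici 0)) (hX : IsSol B D ν f x X) (N : ℕ) {t : ℝ}
    (ht : 0 ≤ t) :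
    ∑ j ∈ U N, (X j t ^ 2 + 2 * ν * D ^ j.length * ∫ τ in (0 : ℝ)..t, X j τ ^ 2) =
      ∑ j ∈ U N, x j ^ 2 + 2 * (∫ τ in (0 : ℝ)..t, ∑ j ∈ U N, f j τ * X j τ) -
        2 * ∫ τ in (0 : ℝ)..t, bd B N (fun j => X j τ) := by
  have hc := cont hX
  have c1 : ContinuousOn (fun τ => ∑ j ∈ U (M := M) N, f j τ * X j τ) (Ici 0) :=
    continuousOn_finsetSum _ fun j _ => (hf j).mul (hc j)
  have c2 : ∀ j, ContinuousOn (fun τ => 2 * ν * D ^ (j : List (Fin M)).length * X j τ ^ 2) (Ici 0) :=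
    fun j => continuousOn_const.mul ((hc j).pow 2)
  have c2' : ContinuousOn (fun τ => ∑ j ∈ U (M := M) N, 2 * ν * D ^ j.length * X j τ ^ 2) (Ici 0) :=
    continuousOn_finsetSum _ fun j _ => c2 j
  have c3 : ContinuousOn (fun τ => bd B N (fun j : List (Fin M) => X j τ)) (Ici 0) := by
    unfold bd
    exact continuousOn_const.mul (continuousOn_finsetSum _ fun j _ =>
      ((hc j).pow 2).mul (continuousOn_finsetSum _ fun k _ => hc (k :: j)))
  have hφ : ∀ s : ℝ, 0 ≤ s → HasDerivWithinAt (fun s => ∑ j ∈ U (M := M) N, X j s ^ 2)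
      (2 * (∑ j ∈ U (M := M) N, f j s * X j s) -
        (∑ j ∈ U (M := M) N, 2 * ν * D ^ j.length * X j s ^ 2) -
        2 * bd B N (fun j : List (Fin M) => X j s)) (Ici 0) s := by
    intro s hs
    rw [← tele' B D ν (fun j => f j s) (fun j => X j s) N]
    refine HasDerivWithinAt.fun_sum fun j _ => ?_
    refine ((hX.2 j s hs).fun_pow 2).congr_deriv ?_
    push_cast
    ring
  have hint := intervalIntegral.integral_eq_sub_of_hasDeriv_right
    (f := fun s => ∑ j ∈ U (M := M) N, X j s ^ 2)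
    (f' := fun s => 2 * (∑ j ∈ U (M := M) N, f j s * X j s) -
        (∑ j ∈ U (M := M) N, 2 * ν * D ^ j.length * X j s ^ 2) -
        2 * bd B N (fun j : List (Fin M) => X j s)) (a := 0) (b := t)
    (by
      rw [uIcc_of_le ht]
      exact fun s hs => ((hφ s hs.1).continuousWithinAt).mono Icc_subset_Ici_self)
    (by
      intro s hs
      rw [min_eq_left ht] at hs
      exact (hφ s hs.1.le).mono (fun r hr => hs.1.le.trans (le_of_lt hr)))
    (ii (((continuousOn_const.mul c1).sub c2').sub (continuousOn_const.mul c3)) ht)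
  have i1 : IntervalIntegrable (fun τ => 2 * ∑ j ∈ U (M := M) N, f j τ * X j τ) volume 0 t :=
    (ii c1 ht).const_mul 2
  have i2 : IntervalIntegrable (fun τ => ∑ j ∈ U (M := M) N, 2 * ν * D ^ j.length * X j τ ^ 2)
    volume 0 t := ii c2' ht
  have i3 : IntervalIntegrable (fun τ => 2 * bd B N (fun j : List (Fin M) => X j τ)) volume 0 t :=
    (ii c3 ht).const_mul 2
  have i12 : IntervalIntegrable (fun τ => 2 * (∑ j ∈ U (M := M) N, f j τ * X j τ) -
      ∑ j ∈ U (M := M) N, 2 * ν * D ^ j.length * X j τ ^ 2) volume 0 t := i1.sub i2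
  rw [intervalIntegral.integral_sub i12 i3, intervalIntegral.integral_sub i1 i2,
    intervalIntegral.integral_const_mul,
    intervalIntegral.integral_const_mul, intervalIntegral.integral_finsetSum
    (fun j _ => ii (c2 j) ht)] at hint
  simp only [intervalIntegral.integral_const_mul] at hint
  rw [Finset.sum_add_distrib]
  have h0 : ∑ j ∈ U (M := M) N, X j 0 ^ 2 = ∑ j ∈ U N, x j ^ 2 :=
    Finset.sum_congr rfl fun j _ => by rw [hX.1 j]
  rw [h0] at hint
  linarith

/-- the boundary term is small -/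
theorem bd_le (hB : 0 < B) {z : List (Fin M) → ℝ} (hz : ∀ j, |z j| ≤ a j.length) (N : ℕ) :
    |bd B N z| ≤ B ^ N * (M ^ N * (a N ^ 2 * (M * a (N + 1)))) := by
  unfold bd
  rw [abs_mul, abs_of_nonneg (pow_nonneg hB.le N)]
  refine mul_le_mul_of_nonneg_left ?_ (pow_nonneg hB.le N)
  refine (Finset.abs_sum_le_sum_abs _ _).trans ?_
  rw [← L_const]
  refine Finset.sum_le_sum fun j hj => ?_
  have hj' := (mem_L N j).1 hj
  have h1 := hz j
  rw [hj'] at h1
  have ha : 0 ≤ a N := (abs_nonneg _).trans h1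
  rw [abs_mul, abs_pow]
  have h2 : |∑ k : Fin M, z (k :: j)| ≤ M * a (N + 1) := by
    refine (Finset.abs_sum_le_sum_abs _ _).trans ?_
    calc ∑ k : Fin M, |z (k :: j)| ≤ ∑ _k : Fin M, a (N + 1) :=
          Finset.sum_le_sum fun k _ => by
            have := hz (k :: j)
            rwa [List.length_cons, hj'] at this
      _ = M * a (N + 1) := by simp
  exact mul_le_mul (pow_le_pow_left₀ (abs_nonneg _) h1 2) h2 (abs_nonneg _) (by positivity)

theorem bd_tend (hM : 0 < M) (hB : 0 < B) (ha : Rapid a) (ha0 : ∀ n, 0 ≤ a n) :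
    Tendsto (fun N : ℕ => B ^ N * ((M : ℝ) ^ N * (a N ^ 2 * (M * a (N + 1))))) atTop (𝓝 0) := by
  have hMR : (0 : ℝ) < M := by exact_mod_cast hM
  obtain ⟨C, hC⟩ := ha (2 * B * M) (by positivity)
  obtain ⟨C', hC'⟩ := ha 1 one_pos
  have hC'' : ∀ n, a n ≤ C' := fun n => by simpa using hC' n
  have hC0 : 0 ≤ C' := (ha0 0).trans (hC'' 0)
  have hCC : 0 ≤ C := by
    have := hC 0
    rw [pow_zero, one_mul] at this
    exact (ha0 0).trans this
  have hlim : Tendsto (fun N : ℕ => (1 / 2 : ℝ) ^ N * (C * C' * (M * C'))) atTop (𝓝 0) := by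
    have := (tendsto_pow_atTop_nhds_zero_of_lt_one (r := (1 / 2 : ℝ)) (by norm_num)
      (by norm_num)).mul_const (C * C' * (M * C'))
    simpa using this
  refine squeeze_zero (fun N => ?_) (fun N => ?_) hlim
  · have := ha0 N
    have := ha0 (N + 1)
    positivity
  · have h1 := hC N
    have h2 : B ^ N * ((M : ℝ) ^ N * a N) ≤ (1 / 2 : ℝ) ^ N * C := by
      rw [one_div, inv_pow, ← div_eq_inv_mul, le_div_iff₀ (by positivity)]
      rw [mul_pow, mul_pow] at h1
      linarith
    have h3 : 0 ≤ B ^ N * ((M : ℝ) ^ N * a N) := by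
      have := ha0 N
      positivity
    calc B ^ N * ((M : ℝ) ^ N * (a N ^ 2 * (M * a (N + 1)))) =
          (B ^ N * ((M : ℝ) ^ N * a N)) * (a N * (M * a (N + 1))) := by ring
      _ ≤ ((1 / 2 : ℝ) ^ N * C) * (C' * (M * C')) := by
          refine mul_le_mul h2 ?_ ?_ (h3.trans h2)
          · refine mul_le_mul (hC'' N) ?_ ?_ hC0
            · exact mul_le_mul_of_nonneg_left (hC'' _) hMR.le
            · exact mul_nonneg hMR.le (ha0 _)
          · exact mul_nonneg (ha0 _) (mul_nonneg hMR.le (ha0 _))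
      _ = _ := by ring

end sol

/-- **LH/1** -/
theorem lh1 : S_LH1 := by
  intro M B D ν F a f x X hM hB hD hν hF hf hfF hX ha hXa
  have hD0 : 0 < D := by linarith
  have hlen : ∀ n : ℕ, ∃ j : List (Fin M), j.length = n :=
    fun n => ⟨List.replicate n ⟨0, hM⟩, by simp⟩
  have ha0 : ∀ n, 0 ≤ a n := by
    intro n
    obtain ⟨j, hj⟩ := hlen n
    have := hXa j 0 le_rfl
    rw [hj] at this
    exact (abs_nonneg _).trans this
  have hF0 : ∀ n, 0 ≤ F n := by
    intro n
    obtain ⟨j, hj⟩ := hlen n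
    have := hfF j 0 le_rfl
    rw [hj] at this
    exact (abs_nonneg _).trans this
  have hc := cont hX
  have raa : Rapid (fun n => a n * a n) := rmul ha ha ha0 ha0
  have haa0 : ∀ n, 0 ≤ a n * a n := fun n => mul_nonneg (ha0 n) (ha0 n)
  have saa : Summable (fun j : List (Fin M) => a j.length * a j.length) :=
    summ (M := M) raa haa0 hM
  have sDaa : Summable (fun j : List (Fin M) => D ^ j.length * (a j.length * a j.length)) :=
    summ (M := M) (rpow raa hD0) (fun n => mul_nonneg (pow_nonneg hD0.le n) (haa0 n)) hM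
  have sFa : Summable (fun j : List (Fin M) => F j.length * a j.length) :=
    summ (M := M) (rmul hF ha hF0 ha0) (fun n => mul_nonneg (hF0 n) (ha0 n)) hM
  have hsq : ∀ j : List (Fin M), ∀ t, 0 ≤ t → X j t ^ 2 ≤ a j.length * a j.length := by
    intro j t ht
    rw [← sq_abs, pow_two]
    have := hXa j t ht
    exact mul_le_mul this this (abs_nonneg _) (ha0 _)
  have hint0 : ∀ j : List (Fin M), ∀ t, 0 ≤ t → 0 ≤ ∫ τ in (0 : ℝ)..t, X j τ ^ 2 :=
    fun j t ht => intervalIntegral.integral_nonneg ht fun _ _ => sq_nonneg _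
  have hint1 : ∀ j : List (Fin M), ∀ t, 0 ≤ t →
      ∫ τ in (0 : ℝ)..t, X j τ ^ 2 ≤ a j.length * a j.length * t := by
    intro j t ht
    have h1 := intervalIntegral.norm_integral_le_of_norm_le_const (a := 0) (b := t)
      (f := fun τ => X j τ ^ 2) (C := a j.length * a j.length) (by
        intro τ hτ
        rw [uIoc_of_le ht] at hτ
        rw [Real.norm_of_nonneg (sq_nonneg _)]
        exact hsq j τ hτ.1.le)
    rw [Real.norm_of_nonneg (hint0 j t ht), sub_zero, abs_of_nonneg ht] at h1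
    exact h1
  have hg0 : ∀ j : List (Fin M), ∀ t, 0 ≤ t →
      0 ≤ X j t ^ 2 + 2 * ν * D ^ j.length * ∫ τ in (0 : ℝ)..t, X j τ ^ 2 := by
    intro j t ht
    have := hint0 j t ht
    positivity
  have hgs : ∀ t, 0 ≤ t → Summable fun j : List (Fin M) =>
      X j t ^ 2 + 2 * ν * D ^ j.length * ∫ τ in (0 : ℝ)..t, X j τ ^ 2 := by
    intro t ht
    refine Summable.of_nonneg_of_le (fun j => hg0 j t ht) (fun j => ?_)
      (saa.add (sDaa.mul_left (2 * ν * t)))
    have h1 := hint1 j t ht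
    have h2 := hsq j t ht
    have h3 : 2 * ν * D ^ j.length * ∫ τ in (0 : ℝ)..t, X j τ ^ 2 ≤
        2 * ν * D ^ j.length * (a j.length * a j.length * t) := by gcongr
    have h4 : 2 * ν * D ^ j.length * (a j.length * a j.length * t) =
        2 * ν * t * (D ^ j.length * (a j.length * a j.length)) := by ring
    linarith
  have hxs : Summable fun j : List (Fin M) => x j ^ 2 := by
    refine Summable.of_nonneg_of_le (fun j => sq_nonneg _) (fun j => ?_) saa
    rw [← hX.1 j]
    exact hsq j 0 le_rfl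
  have hfX : ∀ j : List (Fin M), ∀ t, 0 ≤ t → |f j t * X j t| ≤ F j.length * a j.length := by
    intro j t ht
    rw [abs_mul]
    exact mul_le_mul (hfF j t ht) (hXa j t ht) (abs_nonneg _) (hF0 _)
  have key : ∀ t : ℝ, 0 ≤ t →
      ∑' j, (X j t ^ 2 + 2 * ν * D ^ j.length * ∫ τ in (0 : ℝ)..t, X j τ ^ 2) =
        ∑' j, x j ^ 2 + 2 * ∫ τ in (0 : ℝ)..t, ∑' j, f j τ * X j τ := by
    intro t ht
    have l1 := tend (hgs t ht)
    have l2 := tend hxs
    have l3 : Tendsto (fun N => ∫ τ in (0 : ℝ)..t, ∑ j ∈ U (M := M) N, f j τ * X j τ) atTop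
        (𝓝 (∫ τ in (0 : ℝ)..t, ∑' j, f j τ * X j τ)) := by
      refine intervalIntegral.tendsto_integral_filter_of_dominated_convergence
        (fun _ => ∑' j : List (Fin M), F j.length * a j.length) ?_ ?_ intervalIntegrable_const ?_
      · refine Eventually.of_forall fun N => ?_
        rw [uIoc_of_le ht]
        have c1 : ContinuousOn (fun τ => ∑ j ∈ U (M := M) N, f j τ * X j τ) (Ici 0) :=
          continuousOn_finsetSum _ fun j _ => (hf j).mul (hc j)
        exact (c1.mono (fun s hs => hs.1.le)).aestronglyMeasurable measurableSet_Ioc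
      · refine Eventually.of_forall fun N => Eventually.of_forall fun τ hτ => ?_
        rw [uIoc_of_le ht] at hτ
        refine (norm_sum_le _ _).trans ?_
        calc ∑ j ∈ U (M := M) N, ‖f j τ * X j τ‖ ≤ ∑ j ∈ U (M := M) N, F j.length * a j.length :=
              Finset.sum_le_sum fun j _ => hfX j τ hτ.1.le
          _ ≤ _ := sFa.sum_le_tsum _ fun j _ => mul_nonneg (hF0 _) (ha0 _)
      · refine Eventually.of_forall fun τ hτ => ?_
        rw [uIoc_of_le ht] at hτ
        refine tend ?_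
        exact Summable.of_norm_bounded sFa fun j => hfX j τ hτ.1.le
    have l4 : Tendsto (fun N => ∫ τ in (0 : ℝ)..t, bd B N (fun j : List (Fin M) => X j τ)) atTop
        (𝓝 0) := by
      have h1 := (bd_tend hM hB ha ha0).mul_const t
      rw [zero_mul] at h1
      refine squeeze_zero_norm (fun N => ?_) h1
      have h2 := intervalIntegral.norm_integral_le_of_norm_le_const (a := 0) (b := t)
        (f := fun τ => bd B N (fun j : List (Fin M) => X j τ))
        (C := B ^ N * ((M : ℝ) ^ N * (a N ^ 2 * (M * a (N + 1))))) (by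
          intro τ hτ
          rw [uIoc_of_le ht] at hτ
          exact bd_le hB (fun j => hXa j τ hτ.1.le) N)
      rwa [sub_zero, abs_of_nonneg ht] at h2
    have l5 := (l2.add (l3.const_mul 2)).sub (l4.const_mul 2)
    rw [mul_zero, sub_zero] at l5
    refine tendsto_nhds_unique l1 (l5.congr fun N => ?_)
    exact (trunc hf hX N ht).symm
  refine ⟨⟨hX, ?_, ?_⟩, key⟩
  · intro T
    refine ⟨∑' j : List (Fin M), a j.length * a j.length, fun t ht s => ?_⟩
    calc ∑ j ∈ s, X j t ^ 2 ≤ ∑ j ∈ s, a j.length * a j.length :=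
          Finset.sum_le_sum fun j _ => hsq j t ht.1
      _ ≤ _ := saa.sum_le_tsum _ fun j _ => haa0 _
  · intro t ht s
    rw [← key t ht]
    exact (hgs t ht).sum_le_tsum _ fun j _ => hg0 j t ht

end Pool.Agent.N402.LH
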